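import Pool.Agent.helper95.T5.SpecN

set_option autoImplicit false

/-!
# T5, row SG4: sum of the contents
-/

namespace Pool.Agent.T5

open Finset NumberField Pool.Agent.helper3.FT Pool.Agent.helper47.RA

/-- gcd of two nonzero entries -/
noncomputable def SG4_g (x y : ℤ) : ℝ := if x ≠ 0 ∧ y ≠ 0 then (Int.gcd x y : ℝ) else 0

theorem SG4_g0 (x y : ℤ) : 0 ≤ SG4_g x y := by
  unfold SG4_g
  split_ifs
  · positivity
  · exact le_refl _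

theorem SG4_card (a d : ℕ) (hd : 1 ≤ d) :
    (((Icc (-(a : ℤ)) a).filter (fun x : ℤ => x ≠ 0 ∧ (d : ℤ) ∣ x)).card : ℝ) ≤ 2 * a / d := by
  have hd0 : (0 : ℝ) < d := by exact_mod_cast hd
  have hdz : (0 : ℤ) < d := by exact_mod_cast hd
  have h1 : ((Icc (-(a : ℤ)) a).filter (fun x : ℤ => x ≠ 0 ∧ (d : ℤ) ∣ x)) ⊆
      ((Icc (-((a / d : ℕ) : ℤ)) ((a / d : ℕ) : ℤ)).erase 0).image (fun k : ℤ => (d : ℤ) * k) := by
    intro x hx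
    rw [mem_filter, mem_Icc] at hx
    obtain ⟨⟨hx1, hx2⟩, hx0, k, hk⟩ := hx
    rw [mem_image]
    refine ⟨k, ?_, hk.symm⟩
    rw [mem_erase, mem_Icc]
    have hc : ((a / d : ℕ) : ℤ) = (a : ℤ) / (d : ℤ) := by push_cast; rfl
    rw [hc]
    refine ⟨?_, ?_, ?_⟩
    · rintro rfl
      exact hx0 (by rw [hk]; ring)
    · have h2 : -k ≤ (a : ℤ) / (d : ℤ) := by
        rw [Int.le_ediv_iff_mul_le hdz]
        rw [hk] at hx1
        linarith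
      linarith
    · rw [Int.le_ediv_iff_mul_le hdz]
      rw [hk] at hx2
      linarith
  have h2 : (((Icc (-((a / d : ℕ) : ℤ)) ((a / d : ℕ) : ℤ)).erase 0).card) = 2 * (a / d) := by
    generalize a / d = m
    have hn : (0 : ℤ) ≤ (m : ℤ) := Int.natCast_nonneg m
    rw [card_erase_of_mem (by rw [mem_Icc]; constructor <;> linarith), Int.card_Icc]
    omega
  have h3 := (card_le_card h1).trans card_image_le
  rw [h2] at h3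
  have h4 : (((Icc (-(a : ℤ)) a).filter (fun x : ℤ => x ≠ 0 ∧ (d : ℤ) ∣ x)).card : ℝ) ≤ 2 * ((a / d : ℕ) : ℝ) := by
    exact_mod_cast h3
  refine h4.trans ?_
  have h5 : ((a / d : ℕ) : ℝ) ≤ (a : ℝ) / d := Nat.cast_div_le
  rw [mul_div_assoc]
  linarith

theorem SG4_le (a : ℕ) (x y : ℤ) (hx : x ∈ Icc (-(a : ℤ)) a) :
    SG4_g x y ≤ ∑ d ∈ Icc 1 a, (if (x ≠ 0 ∧ (d : ℤ) ∣ x) then (1 : ℝ) else 0) *
      (if (y ≠ 0 ∧ (d : ℤ) ∣ y) then (1 : ℝ) else 0) * d := by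
  unfold SG4_g
  rw [mem_Icc] at hx
  split_ifs with h
  · have hg : Int.gcd x y ∈ Icc 1 a := by
      rw [mem_Icc]
      refine ⟨Nat.pos_of_ne_zero fun h0 => h.1 (Int.gcd_eq_zero_iff.1 h0).1, ?_⟩
      have h1 : Int.gcd x y ≤ x.natAbs := Nat.le_of_dvd (Int.natAbs_pos.2 h.1) (Int.gcd_dvd_natAbs_left x y)
      omega
    refine le_trans ?_ (single_le_sum (f := fun d : ℕ => (if (x ≠ 0 ∧ (d : ℤ) ∣ x) then (1 : ℝ) else 0) *
      (if (y ≠ 0 ∧ (d : ℤ) ∣ y) then (1 : ℝ) else 0) * (d : ℝ)) (fun d _ => ?_) hg)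
    · rw [if_pos ⟨h.1, Int.gcd_dvd_left x y⟩, if_pos ⟨h.2, Int.gcd_dvd_right x y⟩]
      simp
    · split_ifs <;> simp
  · refine sum_nonneg fun d _ => ?_
    split_ifs <;> simp

theorem SG4_sum (a b T : ℕ) (ha : a ≤ T) (hT : 1 ≤ T) :
    ∑ x ∈ Icc (-(a : ℤ)) a, ∑ y ∈ Icc (-(b : ℤ)) b, SG4_g x y ≤
      (2 * (a : ℝ) + 1) * (2 * (b : ℝ) + 1) * (1 + Real.log T) := by
  have hlog : 0 ≤ Real.log T := Real.log_nonneg (by exact_mod_cast hT)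
  rcases Nat.eq_zero_or_pos a with h0 | hapos
  · subst h0
    have h1 : ∑ x ∈ Icc (-((0 : ℕ) : ℤ)) ((0 : ℕ) : ℤ), ∑ y ∈ Icc (-(b : ℤ)) b, SG4_g x y = 0 := by
      refine sum_eq_zero fun x hx => sum_eq_zero fun y _ => ?_
      rw [mem_Icc] at hx
      have hx0 : x = 0 := by
        obtain ⟨h1, h2⟩ := hx
        push_cast at h1 h2
        omega
      unfold SG4_g
      rw [if_neg (fun h => h.1 hx0)]
    rw [h1]
    positivity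
  have h1 : ∑ x ∈ Icc (-(a : ℤ)) a, ∑ y ∈ Icc (-(b : ℤ)) b, SG4_g x y ≤
      ∑ x ∈ Icc (-(a : ℤ)) a, ∑ y ∈ Icc (-(b : ℤ)) b, ∑ d ∈ Icc 1 a,
        (if (x ≠ 0 ∧ (d : ℤ) ∣ x) then (1 : ℝ) else 0) * (if (y ≠ 0 ∧ (d : ℤ) ∣ y) then (1 : ℝ) else 0) * d :=
    sum_le_sum fun x hx => sum_le_sum fun y _ => SG4_le a x y hx
  have h2 : ∑ x ∈ Icc (-(a : ℤ)) a, ∑ y ∈ Icc (-(b : ℤ)) b, ∑ d ∈ Icc 1 a,
        (if (x ≠ 0 ∧ (d : ℤ) ∣ x) then (1 : ℝ) else 0) * (if (y ≠ 0 ∧ (d : ℤ) ∣ y) then (1 : ℝ) else 0) * d =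
      ∑ d ∈ Icc 1 a, (((Icc (-(a : ℤ)) a).filter (fun x : ℤ => x ≠ 0 ∧ (d : ℤ) ∣ x)).card : ℝ) *
        (((Icc (-(b : ℤ)) b).filter (fun x : ℤ => x ≠ 0 ∧ (d : ℤ) ∣ x)).card : ℝ) * d := by
    rw [sum_congr rfl (fun x _ => sum_comm), sum_comm]
    refine sum_congr rfl fun d _ => ?_
    simp only [← sum_mul, ← mul_sum, sum_boole]
  have h3 : ∑ d ∈ Icc 1 a, (((Icc (-(a : ℤ)) a).filter (fun x : ℤ => x ≠ 0 ∧ (d : ℤ) ∣ x)).card : ℝ) *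
        (((Icc (-(b : ℤ)) b).filter (fun x : ℤ => x ≠ 0 ∧ (d : ℤ) ∣ x)).card : ℝ) * d ≤
      ∑ d ∈ Icc 1 a, 4 * (a : ℝ) * b * (d : ℝ)⁻¹ := by
    refine sum_le_sum fun d hd => ?_
    rw [mem_Icc] at hd
    have hd0 : (0 : ℝ) < d := by exact_mod_cast hd.1
    have e1 := SG4_card a d hd.1
    have e2 := SG4_card b d hd.1
    calc _ ≤ (2 * (a : ℝ) / d) * (2 * (b : ℝ) / d) * d :=
          mul_le_mul_of_nonneg_right (mul_le_mul e1 e2 (by positivity) (by positivity)) hd0.le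
      _ = 4 * (a : ℝ) * b * (d : ℝ)⁻¹ := by
          field_simp
          ring
  have h4 : ∑ d ∈ Icc 1 a, (d : ℝ)⁻¹ ≤ 1 + Real.log a := by
    have e5 := harmonic_le_one_add_log a
    have e6 : ((harmonic a : ℚ) : ℝ) = ∑ d ∈ Icc 1 a, (d : ℝ)⁻¹ := by
      rw [harmonic_eq_sum_Icc]
      push_cast
      rfl
    rw [← e6]
    exact e5
  have h5 : Real.log a ≤ Real.log T := Real.log_le_log (by exact_mod_cast hapos) (by exact_mod_cast ha)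
  have ha0 : (0 : ℝ) ≤ a := Nat.cast_nonneg a
  have hb0 : (0 : ℝ) ≤ b := Nat.cast_nonneg b
  calc ∑ x ∈ Icc (-(a : ℤ)) a, ∑ y ∈ Icc (-(b : ℤ)) b, SG4_g x y ≤ ∑ d ∈ Icc 1 a, 4 * (a : ℝ) * b * (d : ℝ)⁻¹ :=
        h1.trans (h2.le.trans h3)
    _ = 4 * (a : ℝ) * b * ∑ d ∈ Icc 1 a, (d : ℝ)⁻¹ := by rw [mul_sum]
    _ ≤ 4 * (a : ℝ) * b * (1 + Real.log T) := mul_le_mul_of_nonneg_left (by linarith) (by positivity)
    _ ≤ (2 * (a : ℝ) + 1) * (2 * (b : ℝ) + 1) * (1 + Real.log T) :=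
        mul_le_mul_of_nonneg_right (by nlinarith) (by linarith)

theorem SG4_point (A A' B X : ℤ) (q₁ q₂ s : ℕ) (h : Rf (q₂ * A) A' (s * B) (q₁ * s * X) ≠ 0) :
    (g4 A A' B X : ℝ) ≤ SG4_g A' B + SG4_g A X + SG4_g A B + SG4_g A' X := by
  have hg : ∀ x y : ℤ, x ≠ 0 → y ≠ 0 → (g4 A A' B X ∣ Int.gcd x y) → (g4 A A' B X : ℝ) ≤ SG4_g x y := by
    intro x y hx hy hd
    unfold SG4_g
    rw [if_pos ⟨hx, hy⟩]
    have h1 : 0 < Int.gcd x y := Nat.pos_of_ne_zero fun h0 => hx (Int.gcd_eq_zero_iff.1 h0).1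
    exact_mod_cast Nat.le_of_dvd h1 hd
  have d1 : (g4 A A' B X : ℤ) ∣ A := (Int.natCast_dvd_natCast.2 (Nat.gcd_dvd_left _ _)).trans (Int.gcd_dvd_left A A')
  have d2 : (g4 A A' B X : ℤ) ∣ A' := (Int.natCast_dvd_natCast.2 (Nat.gcd_dvd_left _ _)).trans (Int.gcd_dvd_right A A')
  have d3 : (g4 A A' B X : ℤ) ∣ B := (Int.natCast_dvd_natCast.2 (Nat.gcd_dvd_right _ _)).trans (Int.gcd_dvd_left B X)
  have d4 : (g4 A A' B X : ℤ) ∣ X := (Int.natCast_dvd_natCast.2 (Nat.gcd_dvd_right _ _)).trans (Int.gcd_dvd_right B X)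
  have p1 := SG4_g0 A' B
  have p2 := SG4_g0 A X
  have p3 := SG4_g0 A B
  have p4 := SG4_g0 A' X
  by_cases hA : A = 0
  · by_cases hA' : A' = 0
    · exact absurd (by rw [hA, hA']; unfold Rf; ring) h
    · by_cases hB : B = 0
      · by_cases hX : X = 0
        · exact absurd (by rw [hA, hB, hX]; unfold Rf; ring) h
        · have := hg A' X hA' hX (Int.dvd_gcd d2 d4)
          linarith
      · have := hg A' B hA' hB (Int.dvd_gcd d2 d3)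
        linarith
  · by_cases hB : B = 0
    · by_cases hX : X = 0
      · exact absurd (by rw [hB, hX]; unfold Rf; ring) h
      · have := hg A X hA hX (Int.dvd_gcd d1 d4)
        linarith
    · have := hg A B hA hB (Int.dvd_gcd d1 d3)
      linarith

theorem SG4_c (a : ℕ) : ((Icc (-(a : ℤ)) a).card : ℝ) = 2 * (a : ℝ) + 1 := by
  rw [Int.card_Icc]
  have : ((a : ℤ) + 1 - -(a : ℤ)).toNat = 2 * a + 1 := by omega
  rw [this]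
  push_cast
  ring

theorem SG4 : SG4_stmt := by
  refine ⟨4, by norm_num, ?_⟩
  intro a T q₁ q₂ s haT hT _ _ _
  have hlog : 0 ≤ Real.log T := Real.log_nonneg (by exact_mod_cast hT)
  have h1 : ∑ v ∈ (box4 a).filter (fun v => Rf (q₂ * v.1) v.2.1 (s * v.2.2.1) (q₁ * s * v.2.2.2) ≠ 0),
      (g4 v.1 v.2.1 v.2.2.1 v.2.2.2 : ℝ) ≤
      ∑ v ∈ box4 a, (SG4_g v.2.1 v.2.2.1 + SG4_g v.1 v.2.2.2 + SG4_g v.1 v.2.2.1 + SG4_g v.2.1 v.2.2.2) := by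
    refine (sum_le_sum fun v hv => SG4_point _ _ _ _ q₁ q₂ s (mem_filter.1 hv).2).trans ?_
    refine sum_le_sum_of_subset_of_nonneg (filter_subset _ _) fun v _ _ => ?_
    have p1 := SG4_g0 v.2.1 v.2.2.1
    have p2 := SG4_g0 v.1 v.2.2.2
    have p3 := SG4_g0 v.1 v.2.2.1
    have p4 := SG4_g0 v.2.1 v.2.2.2
    linarith
  have c0 := SG4_c (a 0)
  have c1 := SG4_c (a 1)
  have c2 := SG4_c (a 2)
  have c3 := SG4_c (a 3)
  have s1 : ∑ v ∈ box4 a, SG4_g v.2.1 v.2.2.1 = (2 * (a 0 : ℝ) + 1) * (2 * (a 3 : ℝ) + 1) *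
      ∑ x ∈ Icc (-(a 1 : ℤ)) (a 1), ∑ y ∈ Icc (-(a 2 : ℤ)) (a 2), SG4_g x y := by
    unfold box4
    simp only [sum_product, sum_const, nsmul_eq_mul, ← mul_sum, c0, c3]
    ring
  have s2 : ∑ v ∈ box4 a, SG4_g v.1 v.2.2.2 = (2 * (a 1 : ℝ) + 1) * (2 * (a 2 : ℝ) + 1) *
      ∑ x ∈ Icc (-(a 0 : ℤ)) (a 0), ∑ y ∈ Icc (-(a 3 : ℤ)) (a 3), SG4_g x y := by
    unfold box4
    simp only [sum_product, sum_const, nsmul_eq_mul, ← mul_sum, c1, c2]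
    ring
  have s3 : ∑ v ∈ box4 a, SG4_g v.1 v.2.2.1 = (2 * (a 1 : ℝ) + 1) * (2 * (a 3 : ℝ) + 1) *
      ∑ x ∈ Icc (-(a 0 : ℤ)) (a 0), ∑ y ∈ Icc (-(a 2 : ℤ)) (a 2), SG4_g x y := by
    unfold box4
    simp only [sum_product, sum_const, nsmul_eq_mul, ← mul_sum, c1, c3]
    ring
  have s4 : ∑ v ∈ box4 a, SG4_g v.2.1 v.2.2.2 = (2 * (a 0 : ℝ) + 1) * (2 * (a 2 : ℝ) + 1) *
      ∑ x ∈ Icc (-(a 1 : ℤ)) (a 1), ∑ y ∈ Icc (-(a 3 : ℤ)) (a 3), SG4_g x y := by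
    unfold box4
    simp only [sum_product, sum_const, nsmul_eq_mul, ← mul_sum, c0, c2]
    ring
  have t1 := SG4_sum (a 1) (a 2) T (haT 1) hT
  have t2 := SG4_sum (a 0) (a 3) T (haT 0) hT
  have t3 := SG4_sum (a 0) (a 2) T (haT 0) hT
  have t4 := SG4_sum (a 1) (a 3) T (haT 1) hT
  refine h1.trans ?_
  rw [sum_add_distrib, sum_add_distrib, sum_add_distrib, s1, s2, s3, s4]
  have hprod : ∏ i, (2 * (a i : ℝ) + 1) =
      (2 * (a 0 : ℝ) + 1) * (2 * (a 1 : ℝ) + 1) * (2 * (a 2 : ℝ) + 1) * (2 * (a 3 : ℝ) + 1) := by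
    rw [Fin.prod_univ_four]
  rw [hprod]
  have e1 := mul_le_mul_of_nonneg_left t1 (by positivity : (0 : ℝ) ≤ (2 * (a 0 : ℝ) + 1) * (2 * (a 3 : ℝ) + 1))
  have e2 := mul_le_mul_of_nonneg_left t2 (by positivity : (0 : ℝ) ≤ (2 * (a 1 : ℝ) + 1) * (2 * (a 2 : ℝ) + 1))
  have e3 := mul_le_mul_of_nonneg_left t3 (by positivity : (0 : ℝ) ≤ (2 * (a 1 : ℝ) + 1) * (2 * (a 3 : ℝ) + 1))
  have e4 := mul_le_mul_of_nonneg_left t4 (by positivity : (0 : ℝ) ≤ (2 * (a 0 : ℝ) + 1) * (2 * (a 2 : ℝ) + 1))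
  refine (add_le_add (add_le_add (add_le_add e1 e2) e3) e4).trans (le_of_eq ?_)
  ring

end Pool.Agent.T5
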