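import Mathlib
import Pool.Agent.helper94.T5.SpecP

set_option autoImplicit false

namespace Pool.Agent.T5P

open Finset

theorem PD_nat (p : ℕ) (hp : p.Prime) (a : ℕ) : dv p (a : ZMod (p ^ 2)) ↔ p ∣ a := by
  unfold dv
  rw [← Nat.cast_mul, ZMod.natCast_eq_zero_iff, pow_two]
  exact Nat.mul_dvd_mul_iff_left hp.pos

theorem PD_rep (p : ℕ) (hp : p.Prime) (x : ZMod (p ^ 2)) :
    ∃ a : ℕ, a < p ^ 2 ∧ x = (a : ZMod (p ^ 2)) := by
  have : NeZero (p ^ 2) := ⟨pow_ne_zero 2 hp.ne_zero⟩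
  exact ⟨x.val, ZMod.val_lt x, (ZMod.natCast_zmod_val x).symm⟩

theorem PD_one (p : ℕ) (hp : p.Prime) (x : ZMod (p ^ 2)) : dv p x ↔ ∃ y, x = p * y := by
  constructor
  · intro h
    obtain ⟨a, -, rfl⟩ := PD_rep p hp x
    obtain ⟨b, rfl⟩ := (PD_nat p hp a).1 h
    exact ⟨(b : ZMod (p ^ 2)), by push_cast; ring⟩
  · rintro ⟨y, rfl⟩
    obtain ⟨b, -, rfl⟩ := PD_rep p hp y
    have := (PD_nat p hp (p * b)).2 (dvd_mul_right p b)
    simpa using this

theorem PD_mul (p : ℕ) (hp : p.Prime) (x y : ZMod (p ^ 2)) :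
    dv p (x * y) ↔ dv p x ∨ dv p y := by
  obtain ⟨a, -, rfl⟩ := PD_rep p hp x
  obtain ⟨b, -, rfl⟩ := PD_rep p hp y
  rw [← Nat.cast_mul, PD_nat p hp, PD_nat p hp, PD_nat p hp]
  exact hp.dvd_mul

theorem PD_unit (p : ℕ) (hp : p.Prime) (x : ZMod (p ^ 2)) : IsUnit x ↔ ¬ dv p x := by
  obtain ⟨a, -, rfl⟩ := PD_rep p hp x
  rw [ZMod.isUnit_iff_coprime, PD_nat p hp, Nat.coprime_pow_right_iff (by norm_num),
    Nat.coprime_comm, hp.coprime_iff_not_dvd]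

theorem PD_zero (p : ℕ) (hp : p.Prime) (x y : ZMod (p ^ 2)) (hx : dv p x) (hy : dv p y) :
    x * y = 0 := by
  obtain ⟨a, rfl⟩ := (PD_one p hp x).1 hx
  obtain ⟨b, rfl⟩ := (PD_one p hp y).1 hy
  have h : ((p : ZMod (p ^ 2))) * p = 0 := by
    have h2 := (PD_nat p hp p).2 (dvd_refl p)
    exact h2
  calc (p : ZMod (p ^ 2)) * a * (p * b) = (p * p) * (a * b) := by ring
    _ = 0 := by rw [h, zero_mul]

theorem PD_card (p : ℕ) (hp : p.Prime) : Nat.card {x : ZMod (p ^ 2) // dv p x} = p := by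
  have : NeZero (p ^ 2) := ⟨pow_ne_zero 2 hp.ne_zero⟩
  have hb : Function.Bijective (fun y : Fin p =>
      (⟨((p * (y : ℕ) : ℕ) : ZMod (p ^ 2)), (PD_nat p hp _).2 (dvd_mul_right p _)⟩ :
        {x : ZMod (p ^ 2) // dv p x})) := by
    have hlt : ∀ y : Fin p, p * (y : ℕ) < p ^ 2 := by
      intro y
      rw [pow_two]
      exact Nat.mul_lt_mul_of_pos_left y.2 hp.pos
    constructor
    · intro y z h
      have h1 : ((p * (y : ℕ) : ℕ) : ZMod (p ^ 2)) = ((p * (z : ℕ) : ℕ) : ZMod (p ^ 2)) :=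
        congrArg Subtype.val h
      have h2 := congrArg ZMod.val h1
      rw [ZMod.val_natCast_of_lt (hlt y), ZMod.val_natCast_of_lt (hlt z)] at h2
      exact Fin.ext (Nat.eq_of_mul_eq_mul_left hp.pos h2)
    · rintro ⟨x, hx⟩
      obtain ⟨a, ha, rfl⟩ := PD_rep p hp x
      obtain ⟨b, rfl⟩ := (PD_nat p hp a).1 hx
      have hb : b < p := by
        rw [pow_two] at ha
        exact Nat.lt_of_mul_lt_mul_left ha
      exact ⟨⟨b, hb⟩, rfl⟩
  rw [← Nat.card_eq_of_bijective _ hb, Nat.card_fin]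

/-- row PD -/
theorem PD : PD_stmt := by
  intro p hF
  have hp : p.Prime := hF.out
  have : NeZero (p ^ 2) := ⟨pow_ne_zero 2 hp.ne_zero⟩
  refine ⟨PD_one p hp, ?_, PD_mul p hp, PD_unit p hp, PD_zero p hp, PD_card p hp, ?_⟩
  · intro x y hx hy
    unfold dv at *
    rw [mul_add, hx, hy, add_zero]
  · have h1 : Nat.card ({x : ZMod (p ^ 2) // dv p x} ⊕ {x : ZMod (p ^ 2) // ¬ dv p x}) =
        Nat.card (ZMod (p ^ 2)) := by
      classical
      exact Nat.card_congr (Equiv.sumCompl (fun x : ZMod (p ^ 2) => dv p x))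
    rw [Nat.card_sum, PD_card p hp, Nat.card_zmod] at h1
    omega

end Pool.Agent.T5P
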