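import Pool.Agent.helper8.T5.SpecU

set_option autoImplicit false

namespace Pool.Agent.T5

open Finset NumberField Pool.Agent.helper3.FT Pool.Agent.helper47.RA
open scoped nonZeroDivisors

section

variable {K : Type} [Field K] [NumberField K]

theorem UCM_bar_ne (Q : QF K) (b : Ideal (𝓞 K)) (hb : b ≠ ⊥) : Q.bar b ≠ ⊥ := by
  intro h
  have h1 := Q.bar_bar b
  rw [h] at h1
  apply hb
  rw [← h1]
  unfold QF.bar
  exact Ideal.map_bot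

theorem UCM_same (Q : QF K) (a b : Ideal (𝓞 K)) (ha : a ∈ (Ideal (𝓞 K))⁰)
    (hb : b ∈ (Ideal (𝓞 K))⁰) :
    (a * Q.bar b).IsPrincipal ↔ ClassGroup.mk0 ⟨a, ha⟩ = ClassGroup.mk0 ⟨b, hb⟩ := by
  have hb' : Q.bar b ∈ (Ideal (𝓞 K))⁰ :=
    mem_nonZeroDivisors_of_ne_zero (UCM_bar_ne Q b (nonZeroDivisors.ne_zero hb))
  have h1 : ClassGroup.mk0 ((⟨b, hb⟩ * ⟨Q.bar b, hb'⟩ : (Ideal (𝓞 K))⁰)) = 1 := by
    have h0 : (b * Q.bar b) ∈ (Ideal (𝓞 K))⁰ := mul_mem hb hb'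
    have h2 : ClassGroup.mk0 ⟨b * Q.bar b, h0⟩ = 1 := by
      rw [ClassGroup.mk0_eq_one_iff, Q.mul_bar b]
      exact ⟨⟨_, rfl⟩⟩
    exact h2
  have h3 : ClassGroup.mk0 (⟨a * Q.bar b, mul_mem ha hb'⟩ : (Ideal (𝓞 K))⁰) =
      ClassGroup.mk0 ⟨a, ha⟩ * ClassGroup.mk0 ⟨Q.bar b, hb'⟩ := by
    rw [← map_mul]
    rfl
  rw [← ClassGroup.mk0_eq_one_iff (mul_mem ha hb'), h3]
  rw [map_mul] at h1
  rw [eq_inv_of_mul_eq_one_right h1, mul_inv_eq_one]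

theorem UCM_min (x : ClassGroup (𝓞 K)) : ∃ I : (Ideal (𝓞 K))⁰, ClassGroup.mk0 I = x ∧
    ∀ J : (Ideal (𝓞 K))⁰, ClassGroup.mk0 J = x →
      Ideal.absNorm (I : Ideal (𝓞 K)) ≤ Ideal.absNorm (J : Ideal (𝓞 K)) := by
  classical
  have h : ∃ n : ℕ, ∃ I : (Ideal (𝓞 K))⁰, ClassGroup.mk0 I = x ∧
      Ideal.absNorm (I : Ideal (𝓞 K)) = n := by
    obtain ⟨I, hI⟩ := ClassGroup.mk0_surjective x
    exact ⟨_, I, hI, rfl⟩
  obtain ⟨I, hI, hn⟩ := Nat.find_spec h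
  refine ⟨I, hI, ?_⟩
  intro J hJ
  rw [hn]
  exact Nat.find_min' h ⟨J, hJ, rfl⟩

theorem UCM_norm_ne (I : Ideal (𝓞 K)) (h : I ≠ ⊥) : 0 < Ideal.absNorm I := by
  rw [Nat.pos_iff_ne_zero]
  intro h0
  exact h (Ideal.absNorm_eq_zero_iff.1 h0)

theorem UCM_prime_norm (Q : QF K) (q : ℕ) (hq : q.Prime) :
    1 < Ideal.absNorm (Ideal.span {(q : 𝓞 K)}) := by
  have h := Q.hnorm (q : 𝓞 K)
  have h1 := Q.v₁_int (q : ℤ)
  have h2 := Q.v₂_int (q : ℤ)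
  push_cast at h1 h2
  rw [h1, h2, Nat.abs_cast] at h
  have h3 : Ideal.absNorm (Ideal.span {(q : 𝓞 K)}) = q * q := by exact_mod_cast h
  rw [h3]
  have := hq.two_le
  nlinarith

/-- a minimal ideal of its class is primitive -/
theorem UCM_prim (Q : QF K) (a : Ideal (𝓞 K)) (ha : a ∈ (Ideal (𝓞 K))⁰)
    (hmin : ∀ J : (Ideal (𝓞 K))⁰, ClassGroup.mk0 J = ClassGroup.mk0 ⟨a, ha⟩ →
      Ideal.absNorm a ≤ Ideal.absNorm (J : Ideal (𝓞 K))) : Prim a := by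
  intro q hq hdvd
  obtain ⟨b, hb⟩ := hdvd
  have hane : a ≠ ⊥ := nonZeroDivisors.ne_zero ha
  have hbne : b ≠ ⊥ := by
    intro h
    apply hane
    rw [hb, h]
    exact mul_zero _
  have hqne : Ideal.span {(q : 𝓞 K)} ≠ ⊥ := by
    intro h
    apply hane
    rw [hb, h]
    exact zero_mul _
  have hb0 : b ∈ (Ideal (𝓞 K))⁰ := mem_nonZeroDivisors_of_ne_zero hbne
  have hq0 : Ideal.span {(q : 𝓞 K)} ∈ (Ideal (𝓞 K))⁰ := mem_nonZeroDivisors_of_ne_zero hqne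
  have h1 : ClassGroup.mk0 (⟨Ideal.span {(q : 𝓞 K)}, hq0⟩ : (Ideal (𝓞 K))⁰) = 1 := by
    rw [ClassGroup.mk0_eq_one_iff]
    exact ⟨⟨_, rfl⟩⟩
  have h2 : ClassGroup.mk0 (⟨a, ha⟩ : (Ideal (𝓞 K))⁰) = ClassGroup.mk0 ⟨b, hb0⟩ := by
    have h3 : (⟨a, ha⟩ : (Ideal (𝓞 K))⁰) = ⟨Ideal.span {(q : 𝓞 K)}, hq0⟩ * ⟨b, hb0⟩ :=
      Subtype.ext hb
    rw [h3, map_mul, h1, one_mul]
  have h4 := hmin ⟨b, hb0⟩ h2.symm
  have h5 : Ideal.absNorm a = Ideal.absNorm (Ideal.span {(q : 𝓞 K)}) * Ideal.absNorm b := by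
    rw [hb, map_mul]
  have h6 := UCM_prime_norm Q q hq
  have h7 := UCM_norm_ne b hbne
  simp only at h4
  rw [h5] at h4
  nlinarith

/-- a minimal ideal of its class is small -/
theorem UCM_small (Q : QF K) (hD : Q.D < 0) (a : Ideal (𝓞 K)) (ha : a ∈ (Ideal (𝓞 K))⁰)
    (hmin : ∀ J : (Ideal (𝓞 K))⁰, ClassGroup.mk0 J = ClassGroup.mk0 ⟨a, ha⟩ →
      Ideal.absNorm a ≤ Ideal.absNorm (J : Ideal (𝓞 K))) :
    (Ideal.absNorm a : ℝ) ≤ 4 * √(-(Q.D : ℝ)) := by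
  have hane : a ≠ ⊥ := nonZeroDivisors.ne_zero ha
  have hbne := UCM_bar_ne Q a hane
  have hN := UCM_norm_ne a hane
  have hNR : (0 : ℝ) < Ideal.absNorm a := by exact_mod_cast hN
  have hDR : (0 : ℝ) < -(Q.D : ℝ) := by
    have : (Q.D : ℝ) < 0 := by exact_mod_cast hD
    linarith
  have habs : |(Q.D : ℝ)| = -(Q.D : ℝ) := abs_of_neg (by linarith)
  have hs : 0 < √(-(Q.D : ℝ)) := Real.sqrt_pos.2 hDR
  have hE : 0 < 4 * √(-(Q.D : ℝ)) * Ideal.absNorm a := by positivity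
  obtain ⟨x, hx, hx0, hv1, hv2⟩ := Q.hmink (Q.bar a) (UCM_norm_ne _ hbne)
    (√(4 * √(-(Q.D : ℝ)) * Ideal.absNorm a)) (√(4 * √(-(Q.D : ℝ)) * Ideal.absNorm a))
    (Real.sqrt_pos.2 hE) (Real.sqrt_pos.2 hE) (by
      rw [Q.absNorm_bar, habs, Real.mul_self_sqrt hE.le]) (fun _ => rfl)
  have hdvd : Q.bar a ∣ Ideal.span {x} := by
    rw [Ideal.dvd_span_singleton]
    exact hx
  obtain ⟨c, hc⟩ := hdvd
  have hxne : Ideal.span {x} ≠ ⊥ := by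
    rw [Ne, Ideal.span_singleton_eq_bot]
    exact hx0
  have hcne : c ≠ ⊥ := by
    intro h
    apply hxne
    rw [hc, h]
    exact mul_zero _
  have hc0 : c ∈ (Ideal (𝓞 K))⁰ := mem_nonZeroDivisors_of_ne_zero hcne
  have hcl : ClassGroup.mk0 (⟨c, hc0⟩ : (Ideal (𝓞 K))⁰) = ClassGroup.mk0 ⟨a, ha⟩ := by
    rw [← UCM_same Q c a hc0 ha, mul_comm, ← hc]
    exact ⟨⟨_, rfl⟩⟩
  have h1 := hmin ⟨c, hc0⟩ hcl
  simp only at h1
  have h2 : (Ideal.absNorm (Ideal.span {x}) : ℝ) = Ideal.absNorm a * Ideal.absNorm c := by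
    rw [hc, map_mul, Q.absNorm_bar]
    push_cast
    rfl
  have h3 : (Ideal.absNorm (Ideal.span {x}) : ℝ) ≤ 4 * √(-(Q.D : ℝ)) * Ideal.absNorm a := by
    rw [Q.hnorm x, ← Real.mul_self_sqrt hE.le]
    exact mul_le_mul hv1 hv2 (Q.v₂_nonneg x) (Real.sqrt_nonneg _)
  have h4 : (Ideal.absNorm a : ℝ) ≤ Ideal.absNorm c := by exact_mod_cast h1
  rw [h2] at h3
  have h5 : (Ideal.absNorm c : ℝ) ≤ 4 * √(-(Q.D : ℝ)) := by
    have : (Ideal.absNorm a : ℝ) * Ideal.absNorm c ≤ Ideal.absNorm a * (4 * √(-(Q.D : ℝ))) := by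
      linarith
    exact le_of_mul_le_mul_left this hNR
  linarith

end

/-- row UCM -/
theorem UCM (hUIC : UIC_stmt) : UCM_stmt := by
  intro K _ _ Q hD
  classical
  choose f hf hmin using (UCM_min (K := K))
  set T : Finset (ClassGroup (𝓞 K)) := Finset.univ.filter (fun x => x ^ 5 = 1 ∧ x ≠ 1) with hT
  have hfin : ∀ x : ClassGroup (𝓞 K), ∀ J : (Ideal (𝓞 K))⁰,
      ClassGroup.mk0 J = ClassGroup.mk0 (⟨(f x : Ideal (𝓞 K)), (f x).2⟩ : (Ideal (𝓞 K))⁰) →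
      Ideal.absNorm (f x : Ideal (𝓞 K)) ≤ Ideal.absNorm (J : Ideal (𝓞 K)) := by
    intro x J hJ
    exact hmin x J (hJ.trans (hf x))
  refine ⟨T.image (fun x => (f x : Ideal (𝓞 K))), ?_, ?_, ?_⟩
  · refine Finset.card_image_le.trans ?_
    rw [Nat.card_eq_fintype_card, Fintype.card_subtype]
    exact Finset.card_le_card (fun x hx => by
      rw [hT, Finset.mem_filter] at hx
      exact Finset.mem_filter.2 ⟨Finset.mem_univ _, hx.2.1⟩)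
  · intro a ha
    obtain ⟨x, hx, rfl⟩ := Finset.mem_image.1 ha
    rw [hT, Finset.mem_filter] at hx
    obtain ⟨-, hx5, hx1⟩ := hx
    refine ⟨nonZeroDivisors.ne_zero (f x).2, UCM_prim Q _ (f x).2 (hfin x), ?_, ?_,
      UCM_small Q hD _ (f x).2 (hfin x)⟩
    · have h1 : ClassGroup.mk0 ((f x) ^ 5) = 1 := by rw [map_pow, hf x, hx5]
      have h2 : ClassGroup.mk0 (⟨((f x : Ideal (𝓞 K)) ^ 5), pow_mem (f x).2 5⟩ :
          (Ideal (𝓞 K))⁰) = 1 := h1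
      rwa [ClassGroup.mk0_eq_one_iff] at h2
    · intro hp
      rw [← ClassGroup.mk0_eq_one_iff (f x).2] at hp
      exact hx1 ((hf x).symm.trans hp)
  · intro Y hY
    set G : Ideal (𝓞 K) → Set (Ideal (𝓞 K)) := fun b =>
      {a | a ≠ ⊥ ∧ (a * Q.bar b).IsPrincipal ∧ (Ideal.absNorm a : ℝ) ≤ Y} with hG
    have hGf : ∀ b, (G b).Finite := by
      intro b
      refine (Ideal.finite_setOf_absNorm_le (S := 𝓞 K) ⌊Y⌋₊).subset ?_
      intro a ha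
      exact Nat.le_floor ha.2.2
    have hGc : ∀ x ∈ T, ((G (f x : Ideal (𝓞 K))).ncard : ℝ) ≤
        20 * (Y / √(-(Q.D : ℝ)) + √(Y / Ideal.absNorm (f x : Ideal (𝓞 K))) + 1) := by
      intro x hx
      rw [Set.ncard_eq_toFinset_card _ (hGf _)]
      refine hUIC K Q hD (f x) (nonZeroDivisors.ne_zero (f x).2) ?_ Y hY _ ?_
      · intro c hc hp
        have hc0 : c ∈ (Ideal (𝓞 K))⁰ := mem_nonZeroDivisors_of_ne_zero hc
        exact hfin x ⟨c, hc0⟩ ((UCM_same Q c _ hc0 (f x).2).1 hp)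
      · intro a ha
        rw [Set.Finite.mem_toFinset] at ha
        exact ha
    have hsub : IA K Y ⊆ ⋃ b ∈ T.image (fun x => (f x : Ideal (𝓞 K))), G b := by
      intro a ha
      obtain ⟨h0, -, h5, hnp, -, hY'⟩ := ha
      have ha0 : a ∈ (Ideal (𝓞 K))⁰ := mem_nonZeroDivisors_of_ne_zero h0
      set x := ClassGroup.mk0 (⟨a, ha0⟩ : (Ideal (𝓞 K))⁰) with hx
      have hx5 : x ^ 5 = 1 := by
        have h2 : ClassGroup.mk0 (⟨a ^ 5, pow_mem ha0 5⟩ : (Ideal (𝓞 K))⁰) = 1 := by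
          rw [ClassGroup.mk0_eq_one_iff]
          exact h5
        have h3 : ClassGroup.mk0 ((⟨a, ha0⟩ : (Ideal (𝓞 K))⁰) ^ 5) = 1 := h2
        rwa [map_pow] at h3
      have hx1 : x ≠ 1 := by
        intro h
        rw [hx, ClassGroup.mk0_eq_one_iff] at h
        exact hnp h
      have hxT : x ∈ T := by
        rw [hT, Finset.mem_filter]
        exact ⟨Finset.mem_univ _, hx5, hx1⟩
      simp only [Set.mem_iUnion]
      refine ⟨(f x : Ideal (𝓞 K)), Finset.mem_image_of_mem _ hxT, h0, ?_, hY'⟩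
      rw [UCM_same Q a _ ha0 (f x).2]
      exact (hf x).symm
    have h1 : (IA K Y).ncard ≤ ∑ b ∈ T.image (fun x => (f x : Ideal (𝓞 K))), (G b).ncard := by
      refine (Set.ncard_le_ncard hsub ?_).trans ?_
      · exact Set.Finite.biUnion (Finset.finite_toSet _) (fun b _ => hGf b)
      · exact Finset.set_ncard_biUnion_le _ _
    have h2 : ((IA K Y).ncard : ℝ) ≤
        ∑ b ∈ T.image (fun x => (f x : Ideal (𝓞 K))), ((G b).ncard : ℝ) := by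
      exact_mod_cast h1
    refine h2.trans (Finset.sum_le_sum ?_)
    intro b hb
    obtain ⟨x, hx, rfl⟩ := Finset.mem_image.1 hb
    exact hGc x hx

end Pool.Agent.T5
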